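import Pool.Agent.W562.HY.Defs

/-! # HY-UF : existence of the ultrafilter -/

set_option autoImplicit false

namespace Pool.Agent.W970.HY.UF

open Encodable Denumerable
open Pool.Agent.W562.HY

lemma dF_surj (s : Finset ℕ) : ∃ n, dF n = s := by
  refine ⟨encode (s.toList), ?_⟩
  unfold dF
  rw [Denumerable.ofNat_encode]
  exact s.toList_toFinset

/-- meeting countably many requirements -/
lemma seq {R ι : Type} [Countable ι] [Nonempty ι] (K : R → Set ℕ) (Req : ι → R → Prop)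
    (h0 : ∃ κ, (K κ).Infinite)
    (h : ∀ i κ, (K κ).Infinite → ∃ κ', (K κ').Infinite ∧ K κ' ⊆ K κ ∧ Req i κ') :
    ∃ κ : ℕ → R, (∀ n, (K (κ n)).Infinite) ∧ (∀ n, K (κ (n + 1)) ⊆ K (κ n)) ∧
      ∀ i, ∃ n, Req i (κ n) := by
  obtain ⟨e, he⟩ := exists_surjective_nat ι
  choose! f hf using h
  obtain ⟨k0, hk0⟩ := h0
  let κ : ℕ → R := fun n => Nat.rec k0 (fun n r => f (e n) r) n
  have hs : ∀ n, κ (n + 1) = f (e n) (κ n) := fun n => rfl
  have hinf : ∀ n, (K (κ n)).Infinite := by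
    intro n
    induction n with
    | zero => exact hk0
    | succ n ih => rw [hs]; exact (hf (e n) (κ n) ih).1
  refine ⟨κ, hinf, fun n => ?_, fun i => ?_⟩
  · rw [hs]; exact (hf (e n) (κ n) (hinf n)).2.1
  · obtain ⟨n, rfl⟩ := he i
    exact ⟨n + 1, by rw [hs]; exact (hf (e n) (κ n) (hinf n)).2.2⟩

section

variable (S : Str)

/-- a good reservoir for the compactness requirement -/
def Good (Y J : S.R) (a b : ℕ) (Z : S.R) : Prop :=
  Sub S Z Y ∧ (KK S Z).Infinite ∧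
    (∀ k ∈ KK S Z, a * (blk S Y k).card ≤ b * (blk S Z k).card) ∧
    ∀ E : ℕ, (∀ x ∈ dF E, InU S x Z) → S.app J E = 1

/-- indices of the requirements -/
abbrev Ind : Type :=
  (S.C × ℕ × ℕ × S.R × ℕ × ℕ) ⊕ ((S.C × ℕ × ℕ × S.R × ℕ × ℕ) ⊕ (S.R × S.R × ℕ × ℕ))

/-- the requirements -/
def Req : Ind S → S.R → Prop
  | .inl (c, n, F, Y, a, b), κ => 0 < a → Opn S c n → (KK S κ ∩ KK S Y).Finite ∨
      (KK S κ ⊆ KK S Y ∧ ∃ J, J1 S c n F Y a b κ J ∧ J2 S c n F Y a b κ J)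
  | .inr (.inl (c, n, F, Y, a, b)), κ => 0 < a → (KK S κ ∩ KK S Y).Finite ∨
      (KK S κ ⊆ KK S Y ∧ ∃ Q, X1 S c n F Y a b κ Q)
  | .inr (.inr (Y, J, a, b)), κ => (∃ Z, Good S Y J a b Z ∧ KK S κ ⊆ KK S Z) ∨
      ∀ Z, Good S Y J a b Z → ¬ KK S Z ⊆ KK S κ

variable {S}

lemma req_meet (hJ : SJ S) (hX : SX S) (i : Ind S) (κ : S.R) (hκ : (KK S κ).Infinite) :
    ∃ κ', (KK S κ').Infinite ∧ KK S κ' ⊆ KK S κ ∧ Req S i κ' := by
  rcases i with ⟨c, n, F, Y, a, b⟩ | ⟨c, n, F, Y, a, b⟩ | ⟨Y, J, a, b⟩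
  · by_cases h : 0 < a ∧ Opn S c n ∧ (KK S κ ∩ KK S Y).Infinite
    · obtain ⟨κ', J, h1, h2, h3, h4⟩ := hJ c n F Y κ a b h.1 h.2.1 h.2.2
      exact ⟨κ', h1, fun x hx => (h2 hx).1, fun _ _ => Or.inr ⟨fun x hx => (h2 hx).2, J, h3, h4⟩⟩
    · refine ⟨κ, hκ, subset_rfl, fun ha ho => Or.inl ?_⟩
      by_contra hcon
      exact h ⟨ha, ho, hcon⟩
  · by_cases h : 0 < a ∧ (KK S κ ∩ KK S Y).Infinite
    · obtain ⟨κ', Q, h1, h2, h3⟩ := hX c n F Y κ a b h.1 h.2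
      exact ⟨κ', h1, fun x hx => (h2 hx).1, fun _ => Or.inr ⟨fun x hx => (h2 hx).2, Q, h3⟩⟩
    · refine ⟨κ, hκ, subset_rfl, fun ha => Or.inl ?_⟩
      by_contra hcon
      exact h ⟨ha, hcon⟩
  · by_cases h : ∃ Z, Good S Y J a b Z ∧ KK S Z ⊆ KK S κ
    · obtain ⟨Z, hZ, hZκ⟩ := h
      exact ⟨Z, hZ.2.1, hZκ, Or.inl ⟨Z, hZ, subset_rfl⟩⟩
    · refine ⟨κ, hκ, subset_rfl, Or.inr fun Z hZ hsub => h ⟨Z, hZ, hsub⟩⟩

/-- coding of finitely many pairs of reals -/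
lemma join_all (hJoin : SJoin S) (v0 : S.R) (L : ℕ → S.R × S.R × ℕ × ℕ) (m : ℕ) :
    ∃ V : S.R, ∀ i < m, (∀ k, vY S V i k = blk S (L i).1 k) ∧
      (∀ E, vJ S V i E = S.app (L i).2.1 E) ∧ va S V i = (L i).2.2.1 ∧ vb S V i = (L i).2.2.2 := by
  induction m with
  | zero => exact ⟨v0, fun i hi => absurd hi (Nat.not_lt_zero i)⟩
  | succ m ih =>
    obtain ⟨V, hV⟩ := ih
    obtain ⟨V', h1, h2, h3, h4⟩ := hJoin V (L m).1 (L m).2.1 m (L m).2.2.1 (L m).2.2.2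
    refine ⟨V', fun i hi => ?_⟩
    by_cases him : i = m
    · subst him
      refine ⟨fun k => ?_, fun E => ?_, ?_, ?_⟩
      · unfold vY blk; rw [h2]
      · unfold vJ; rw [h3]
      · unfold va; rw [h4, Nat.unpair_pair]
      · unfold vb; rw [h4, Nat.unpair_pair]
    · have hi' : i < m := by omega
      obtain ⟨k1, k2, k3, k4⟩ := hV i hi'
      refine ⟨fun k => ?_, fun E => ?_, ?_, ?_⟩
      · rw [← k1 k]; unfold vY; rw [h1 i _ him]
      · rw [← k2 E]; unfold vJ; rw [h1 i _ him]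
      · rw [← k3]; unfold va; rw [h1 i _ him]
      · rw [← k4]; unfold vb; rw [h1 i _ him]

/-- the hypothesis on `A` -/
def HA (A : Set ℕ) (τ : S.R × S.R × ℕ × ℕ) : Prop :=
  ∀ E : ℕ, (∀ x ∈ dF E, x ∈ A) → (∀ x ∈ dF E, InU S x τ.1) → S.app τ.2.1 E = 1

/-- the set of the indices of the blocks in which `A` is dense -/
def ST (A : Set ℕ) (τ : S.R × S.R × ℕ × ℕ) : Set ℕ :=
  {k | (blk S τ.1 k).Nonempty ∧ τ.2.2.1 * (blk S τ.1 k).card ≤ τ.2.2.2 * cA A (blk S τ.1 k)}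

/-- the main claim -/
lemma claim (hJoin : SJoin S) (hCpt : SCpt S) (κ : ℕ → S.R) (hinf : ∀ n, (KK S (κ n)).Infinite)
    (hdec : ∀ n m, n ≤ m → KK S (κ m) ⊆ KK S (κ n)) (A : Set ℕ) (N N0 : ℕ)
    (L : List (S.R × S.R × ℕ × ℕ))
    (hL : ∀ τ ∈ L, 0 < τ.2.2.1 ∧ HA A τ ∧
      ∃ n, ∀ Z, Good S τ.1 τ.2.1 τ.2.2.1 τ.2.2.2 Z → ¬ KK S Z ⊆ KK S (κ n)) :
    ∃ k ∈ KK S (κ N), N0 ≤ k ∧ ∀ τ ∈ L, k ∉ ST A τ := by
  classical
  by_contra hcon
  push Not at hcon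
  -- a stage which is large enough
  obtain ⟨N', hNN', hbar⟩ : ∃ N', N ≤ N' ∧ ∀ τ ∈ L,
      ∀ Z, Good S τ.1 τ.2.1 τ.2.2.1 τ.2.2.2 Z → ¬ KK S Z ⊆ KK S (κ N') := by
    clear hcon
    induction L with
    | nil => exact ⟨N, le_rfl, fun τ hτ => absurd hτ (List.not_mem_nil)⟩
    | cons τ L ih =>
      obtain ⟨N', h1, h2⟩ := ih (fun τ' hτ' => hL τ' (List.mem_cons_of_mem _ hτ'))
      obtain ⟨_, _, n, hn⟩ := hL τ List.mem_cons_self
      refine ⟨max N' n, h1.trans (le_max_left _ _), fun τ' hτ' Z hZ hsub => ?_⟩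
      rcases List.mem_cons.1 hτ' with rfl | hτ''
      · exact hn Z hZ (hsub.trans (hdec _ _ (le_max_right _ _)))
      · exact h2 τ' hτ'' Z hZ (hsub.trans (hdec _ _ (le_max_left _ _)))
  let L' : ℕ → S.R × S.R × ℕ × ℕ := fun i => L.getD i (S.r0, S.r0, 1, 1)
  have hL' : ∀ i < L.length, L' i ∈ L := by
    intro i hi
    show L.getD i _ ∈ L
    rw [List.getD_eq_getElem _ _ hi]
    exact List.getElem_mem hi
  have hL'' : ∀ τ ∈ L, ∃ i < L.length, L' i = τ := by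
    intro τ hτ
    obtain ⟨i, hi, rfl⟩ := List.getElem_of_mem hτ
    exact ⟨i, hi, List.getD_eq_getElem _ _ hi⟩
  obtain ⟨V, hV⟩ := join_all hJoin S.r0 L' L.length
  obtain ⟨i, hi, Z, hZ1, hZ2, hZ3, hZ4, hZ5⟩ := hCpt V (κ N') L.length N0 (hinf N') (fun i hi => by
      rw [(hV i hi).2.2.1]
      exact (hL _ (hL' i hi)).1) (fun M => by
      -- the finite part of `A`
      obtain ⟨s, hs⟩ := dF_surj (((Finset.range L.length).biUnion fun i =>
        (Finset.range M).biUnion fun k => blk S (L' i).1 k).filter fun x => x ∈ A)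
      have hsA : ∀ x ∈ dF s, x ∈ A := by
        intro x hx
        rw [hs] at hx
        exact (Finset.mem_filter.1 hx).2
      refine ⟨s, fun i hi E hE hE2 => ?_, fun k hk hk0 hkκ => ?_⟩
      · rw [(hV i hi).2.1 E]
        refine (hL _ (hL' i hi)).2.1 E (fun x hx => hsA x (hE hx)) (fun x hx => ?_)
        obtain ⟨k, _, hk2⟩ := hE2 x hx
        rw [(hV i hi).1 k] at hk2
        exact ⟨k, hk2⟩
      · obtain ⟨τ, hτ, hkτ⟩ := hcon k (hdec _ _ hNN' hkκ) hk0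
        obtain ⟨i, hi, rfl⟩ := hL'' τ hτ
        refine ⟨i, hi, ?_, ?_⟩
        · rw [(hV i hi).1 k]; exact hkτ.1
        · rw [(hV i hi).1 k, (hV i hi).2.2.1, (hV i hi).2.2.2]
          have hc : (dF s ∩ blk S (L' i).1 k).card = cA A (blk S (L' i).1 k) := by
            unfold cA
            rw [← Set.ncard_coe_finset]
            congr 1
            ext x
            simp only [Finset.coe_inter, Set.mem_inter_iff, Finset.mem_coe]
            constructor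
            · rintro ⟨h1, h2⟩
              exact ⟨h2, hsA x h1⟩
            · rintro ⟨h1, h2⟩
              refine ⟨?_, h1⟩
              rw [hs]
              refine Finset.mem_filter.2 ⟨?_, h2⟩
              exact Finset.mem_biUnion.2 ⟨i, Finset.mem_range.2 hi,
                Finset.mem_biUnion.2 ⟨k, Finset.mem_range.2 hk, h1⟩⟩
          rw [hc]
          exact hkτ.2)
  refine hbar _ (hL' i hi) Z ⟨?_, hZ2, ?_, ?_⟩ hZ3
  · intro k
    rw [← (hV i hi).1 k]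
    exact hZ1 k
  · intro k hk
    have := hZ4 k hk
    rwa [(hV i hi).1 k, (hV i hi).2.2.1, (hV i hi).2.2.2] at this
  · intro E hE
    rw [← (hV i hi).2.1 E]
    exact hZ5 E hE

end

theorem main : P_uf := by
  intro S hR hC hJoin hCpt hJ hX h0 A
  have : Nonempty (Ind S) := ⟨.inr (.inr (S.r0, S.r0, 0, 0))⟩
  obtain ⟨κ, hinf, hdec1, hreq⟩ := seq (KK S) (Req S) h0 (req_meet hJ hX)
  have hdec : ∀ n m, n ≤ m → KK S (κ m) ⊆ KK S (κ n) := by
    intro n m hnm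
    induction m, hnm using Nat.le_induction with
    | base => exact subset_rfl
    | succ m _ ih => exact (hdec1 m).trans ih
  let Bar : S.R × S.R × ℕ × ℕ → Prop := fun τ => 0 < τ.2.2.1 ∧ HA A τ ∧
      ∃ n, ∀ Z, Good S τ.1 τ.2.1 τ.2.2.1 τ.2.2.2 Z → ¬ KK S Z ⊆ KK S (κ n)
  let B : Set (Set ℕ) := {s | (∃ n, s = KK S (κ n)) ∨ (∃ k0, s = {k | k0 ≤ k}) ∨
    ∃ τ, Bar τ ∧ s = (ST A τ)ᶜ}
  have hgen : (Filter.generate B).NeBot := by
    rw [Filter.generate_neBot_iff]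
    intro t ht htf
    have key : ∃ (N N0 : ℕ) (L : List (S.R × S.R × ℕ × ℕ)), (∀ τ ∈ L, Bar τ) ∧
        ∀ k ∈ KK S (κ N), N0 ≤ k → (∀ τ ∈ L, k ∉ ST A τ) → k ∈ ⋂₀ t := by
      induction t, htf using Set.Finite.induction_on with
      | empty => exact ⟨0, 0, [], fun τ hτ => absurd hτ (List.not_mem_nil), fun k _ _ _ => by simp⟩
      | insert _ _ ih =>
        rename_i s t' _ _
        obtain ⟨N, N0, L, h1, h2⟩ := ih (fun x hx => ht (Set.mem_insert_of_mem _ hx))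
        rcases ht (Set.mem_insert s t') with ⟨n, hs⟩ | ⟨k0, hs⟩ | ⟨τ, hτ, hs⟩
        · refine ⟨max N n, N0, L, h1, fun k hk hk0 hkL => ?_⟩
          rw [Set.sInter_insert]
          refine ⟨?_, h2 k (hdec _ _ (le_max_left _ _) hk) hk0 hkL⟩
          rw [hs]
          exact hdec _ _ (le_max_right _ _) hk
        · refine ⟨N, max N0 k0, L, h1, fun k hk hk0 hkL => ?_⟩
          rw [Set.sInter_insert]
          refine ⟨?_, h2 k hk ((le_max_left _ _).trans hk0) hkL⟩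
          rw [hs]
          exact (le_max_right _ _).trans hk0
        · refine ⟨N, N0, τ :: L, fun τ' hτ' => ?_, fun k hk hk0 hkL => ?_⟩
          · rcases List.mem_cons.1 hτ' with rfl | h
            · exact hτ
            · exact h1 τ' h
          · rw [Set.sInter_insert]
            refine ⟨?_, h2 k hk hk0 (fun τ' hτ' => hkL τ' (List.mem_cons_of_mem _ hτ'))⟩
            rw [hs]
            exact hkL τ List.mem_cons_self
    obtain ⟨N, N0, L, h1, h2⟩ := key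
    obtain ⟨k, hk1, hk2, hk3⟩ := claim hJoin hCpt κ hinf hdec A N N0 L h1
    exact ⟨k, h2 k hk1 hk2 hk3⟩
  have hmem : ∀ s ∈ B, s ∈ Ultrafilter.of (Filter.generate B) := fun s hs =>
    Ultrafilter.of_le (Filter.generate B) (Filter.mem_generate_of_mem hs)
  have hfree : ∀ k0, {k | k0 ≤ k} ∈ Ultrafilter.of (Filter.generate B) :=
    fun k0 => hmem _ (Or.inr (Or.inl ⟨k0, rfl⟩))
  have hκ : ∀ n, KK S (κ n) ∈ Ultrafilter.of (Filter.generate B) := fun n => hmem _ (Or.inl ⟨n, rfl⟩)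
  have hnf : ∀ s : Set ℕ, s.Finite → s ∉ Ultrafilter.of (Filter.generate B) := by
    intro s hs hsU
    obtain ⟨M, hM⟩ := hs.bddAbove
    have h1 := Filter.inter_mem hsU (hfree (M + 1))
    obtain ⟨x, hx1, hx2⟩ := Ultrafilter.nonempty_of_mem h1
    have h3 := hM hx1
    have h4 : M + 1 ≤ x := hx2
    omega
  refine ⟨Ultrafilter.of (Filter.generate B), ⟨hfree, ?_, ?_, ?_⟩⟩
  · intro c n F Y a b ha ho hY
    obtain ⟨j, hj⟩ := hreq (.inl (c, n, F, Y, a, b))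
    rcases hj ha ho with h | ⟨_, J, h1, h2⟩
    · exact absurd (Filter.inter_mem (hκ j) hY) (hnf _ h)
    · exact ⟨κ j, J, hκ j, h1, h2⟩
  · intro c n F Y a b ha hY
    obtain ⟨j, hj⟩ := hreq (.inr (.inl (c, n, F, Y, a, b)))
    rcases hj ha with h | ⟨_, Q, h1⟩
    · exact absurd (Filter.inter_mem (hκ j) hY) (hnf _ h)
    · exact ⟨κ j, Q, hκ j, h1⟩
  · intro Y J a b ha hH hST
    obtain ⟨j, hj⟩ := hreq (.inr (.inr (Y, J, a, b)))
    rcases hj with ⟨Z, hZ, hsub⟩ | hbar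
    · exact ⟨Z, hZ.1, Filter.mem_of_superset (hκ j) hsub, hZ.2.2.1, hZ.2.2.2⟩
    · exfalso
      have h1 : (ST A (Y, J, a, b))ᶜ ∈ Ultrafilter.of (Filter.generate B) :=
        hmem _ (Or.inr (Or.inr ⟨(Y, J, a, b), ⟨ha, hH, j, hbar⟩, rfl⟩))
      exact Ultrafilter.compl_mem_iff_notMem.1 h1 hST

end Pool.Agent.W970.HY.UF
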