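import Pool.Agent.W562.HY.Defs

/-! # HY-VX : uniform decisions, `SX` holds in `VV` -/

set_option autoImplicit false

namespace Pool.Agent.W970.HY.VX

open Encodable Denumerable
open Pool.Agent.W562.HY

lemma dF_surj (s : Finset ℕ) : ∃ n, dF n = s := by
  refine ⟨encode (s.toList), ?_⟩
  unfold dF
  rw [Denumerable.ofNat_encode]
  exact s.toList_toFinset

/-- a real with prescribed set of indices -/
lemma real_of (K : Set ℕ) : ∃ κ : VV.R, KK VV κ = K := by
  classical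
  obtain ⟨n1, h1⟩ := dF_surj {0}
  obtain ⟨n0, h0⟩ := dF_surj ∅
  refine ⟨fun k => if k ∈ K then n1 else n0, ?_⟩
  ext k
  show (dF (if k ∈ K then n1 else n0)).Nonempty ↔ k ∈ K
  by_cases hk : k ∈ K
  · rw [if_pos hk, h1]
    simp [hk]
  · rw [if_neg hk, h0]
    simp [hk]

theorem main : P_vX := by
  classical
  intro hdiag c n F Y κ a b _ hinf
  let P : ℕ → VV.R → Prop := fun x Z => Sub VV Z Y ∧
    (∀ k ∈ KK VV Z, a * (blk VV Y k).card ≤ b * (blk VV Z k).card) ∧ Perp VV c (Nat.pair x n) F Z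
  let D : ℕ → Set ℕ → Prop := fun x K => ∃ Z, P x Z ∧ (K \ KK VV Z).Finite
  let E : ℕ → Set ℕ → Prop := fun x K => ∃ Z, P x Z ∧ (KK VV Z ∩ K).Infinite
  obtain ⟨K', hK', hK'inf, hQ⟩ := hdiag (fun x K => D x K ∨ ¬ E x K) (KK VV κ ∩ KK VV Y)
    (by
      rintro x K K' (⟨Z, hZ, hf⟩ | hE) _ hKK
      · left
        refine ⟨Z, hZ, (hKK.union hf).subset ?_⟩
        intro k hk
        by_cases hkK : k ∈ K
        · exact Or.inr ⟨hkK, hk.2⟩
        · exact Or.inl ⟨hk.1, hkK⟩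
      · right
        rintro ⟨Z, hZ, hi⟩
        apply hE
        refine ⟨Z, hZ, ?_⟩
        refine (hi.diff hKK).mono ?_
        rintro k ⟨⟨h1, h2⟩, h3⟩
        refine ⟨h1, ?_⟩
        by_contra h4
        exact h3 ⟨h2, h4⟩)
    (by
      intro x K _ hKinf
      by_cases hE : E x K
      · obtain ⟨Z, hZ, hi⟩ := hE
        refine ⟨KK VV Z ∩ K, Set.inter_subset_right, hi, Or.inl ⟨Z, hZ, ?_⟩⟩
        have : (KK VV Z ∩ K) \ KK VV Z = ∅ := by
          ext k
          simp only [Set.mem_diff, Set.mem_inter_iff, Set.mem_empty_iff_false, iff_false]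
          tauto
        rw [this]
        exact Set.finite_empty
      · exact ⟨K, subset_rfl, hKinf, Or.inr hE⟩)
    (KK VV κ ∩ KK VV Y) subset_rfl hinf
  obtain ⟨κ', hκ'⟩ := real_of K'
  refine ⟨κ', fun x => if D x K' then 1 else 0, by rw [hκ']; exact hK'inf,
    by rw [hκ']; exact hK', ?_⟩
  intro x
  show ((if D x K' then 1 else 0) = 0 ∨ (if D x K' then 1 else 0) = 1) ∧
    ((if D x K' then 1 else 0) = 1 → _) ∧ ((if D x K' then 1 else 0) = 0 → _)
  refine ⟨?_, ?_, ?_⟩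
  · by_cases h : D x K'
    · right; rw [if_pos h]
    · left; rw [if_neg h]
  · intro h1
    have h : D x K' := by
      by_contra h
      rw [if_neg h] at h1
      exact absurd h1 (by norm_num)
    obtain ⟨Z, ⟨hZ1, hZ2, hZ3⟩, hf⟩ := h
    obtain ⟨M, hM⟩ := hf.bddAbove
    refine ⟨Z, hZ1, hZ2, ⟨M + 1, fun k hk hkκ => ?_⟩, hZ3⟩
    by_contra hkZ
    rw [hκ'] at hkκ
    have := hM ⟨hkκ, hkZ⟩
    omega
  · intro h0
    have h : ¬ D x K' := by
      intro h
      rw [if_pos h] at h0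
      exact absurd h0 (by norm_num)
    rcases hQ x with hD | hE
    · exact absurd hD h
    · rintro ⟨Z, hZ1, hZ2, hZ3, hZ4⟩
      rw [hκ'] at hZ3
      exact hE ⟨Z, ⟨hZ1, hZ2, hZ4⟩, hZ3⟩

end Pool.Agent.W970.HY.VX
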